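import Pool.Agent.helper92.ISO.SpecG

/-!
Row iso:DSP (MP_069684_lc): supply of designs.
-/

set_option autoImplicit false

open Filter Topology

namespace Pool.Agent.ISO

open Pool.Agent.PB

theorem DSP_log (D ε : ℝ) (hε : 0 < ε) :
    ∀ᶠ N : ℕ in atTop, 1 ≤ N ∧ D * (1 + Real.log N) ^ 2 ≤ (N : ℝ) ^ (ε / 2) := by
  have h1 : Tendsto (fun N : ℕ => (N : ℝ) ^ (ε / 4)) atTop atTop :=
    (tendsto_rpow_atTop (by linarith : (0 : ℝ) < ε / 4)).comp tendsto_natCast_atTop_atTop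
  have h2 := h1.eventually_ge_atTop (|D| * (1 + 8 / ε) ^ 2)
  filter_upwards [h2, eventually_ge_atTop 1] with N h3 h4
  refine ⟨h4, ?_⟩
  have hN : (1 : ℝ) ≤ N := by exact_mod_cast h4
  have hN0 : (0 : ℝ) < N := by linarith
  have h5 : Real.log N ≤ (N : ℝ) ^ (ε / 8) / (ε / 8) :=
    Real.log_le_rpow_div hN0.le (by linarith)
  have h6 : (1 : ℝ) ≤ (N : ℝ) ^ (ε / 8) := Real.one_le_rpow hN (by linarith)
  have h7 : 0 ≤ Real.log N := Real.log_nonneg hN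
  have h8 : 1 + Real.log N ≤ (1 + 8 / ε) * (N : ℝ) ^ (ε / 8) := by
    have h9 : (N : ℝ) ^ (ε / 8) / (ε / 8) = 8 / ε * (N : ℝ) ^ (ε / 8) := by
      field_simp
    rw [h9] at h5
    linarith
  have h10 : (1 + Real.log N) ^ 2 ≤ ((1 + 8 / ε) * (N : ℝ) ^ (ε / 8)) ^ 2 :=
    pow_le_pow_left₀ (by linarith) h8 2
  have h11 : ((N : ℝ) ^ (ε / 8)) ^ 2 = (N : ℝ) ^ (ε / 4) := by
    rw [← Real.rpow_natCast, ← Real.rpow_mul hN0.le]
    congr 1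
    push_cast
    ring
  have h12 : (N : ℝ) ^ (ε / 4) * (N : ℝ) ^ (ε / 4) = (N : ℝ) ^ (ε / 2) := by
    rw [← Real.rpow_add hN0]
    congr 1
    ring
  have h13 : 0 < (N : ℝ) ^ (ε / 4) := Real.rpow_pos_of_pos hN0 _
  calc D * (1 + Real.log N) ^ 2 ≤ |D| * (1 + Real.log N) ^ 2 :=
        mul_le_mul_of_nonneg_right (le_abs_self D) (sq_nonneg _)
    _ ≤ |D| * ((1 + 8 / ε) * (N : ℝ) ^ (ε / 8)) ^ 2 :=
        mul_le_mul_of_nonneg_left h10 (abs_nonneg D)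
    _ = (|D| * (1 + 8 / ε) ^ 2) * (N : ℝ) ^ (ε / 4) := by
        rw [mul_pow, h11]; ring
    _ ≤ (N : ℝ) ^ (ε / 4) * (N : ℝ) ^ (ε / 4) := mul_le_mul_of_nonneg_right h3 h13.le
    _ = (N : ℝ) ^ (ε / 2) := h12

theorem DSP_mono {M R : ℕ} {m' m κ : ℕ} {p : ℝ} {K : Fin M → Finset (Fin R)} (h : m' ≤ m)
    (hD : Design m' κ p K) : Design m κ p K :=
  ⟨fun e => ⟨(hD.1 e).1, ((hD.1 e).2).trans h⟩, hD.2⟩

theorem DSP_min {m N : ℕ} {a : ℝ} (hm : 1 ≤ m) (hN : 1 ≤ N) (ha : 0 ≤ a) (ha1 : a ≤ 1) :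
    1 ≤ min m ⌊(N : ℝ) ^ a⌋₊ ∧ ((min m ⌊(N : ℝ) ^ a⌋₊ : ℕ) : ℝ) ≤ (N : ℝ) ^ a ∧
      0 ≤ Real.log ((min m ⌊(N : ℝ) ^ a⌋₊ : ℕ) : ℝ) ∧
      Real.log ((min m ⌊(N : ℝ) ^ a⌋₊ : ℕ) : ℝ) ≤ Real.log N := by
  have hN' : (1 : ℝ) ≤ N := by exact_mod_cast hN
  have h1 : (1 : ℝ) ≤ (N : ℝ) ^ a := Real.one_le_rpow hN' ha
  have h2 : 1 ≤ ⌊(N : ℝ) ^ a⌋₊ := Nat.le_floor (by rw [Nat.cast_one]; exact h1)
  have h3 : 1 ≤ min m ⌊(N : ℝ) ^ a⌋₊ := le_min hm h2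
  have h4 : ((min m ⌊(N : ℝ) ^ a⌋₊ : ℕ) : ℝ) ≤ (N : ℝ) ^ a := by
    have h5 : ((min m ⌊(N : ℝ) ^ a⌋₊ : ℕ) : ℝ) ≤ ((⌊(N : ℝ) ^ a⌋₊ : ℕ) : ℝ) := by
      exact_mod_cast min_le_right _ _
    exact h5.trans (Nat.floor_le (by linarith))
  have h6 : (1 : ℝ) ≤ ((min m ⌊(N : ℝ) ^ a⌋₊ : ℕ) : ℝ) := by exact_mod_cast h3
  have h7 : (N : ℝ) ^ a ≤ N := by
    calc (N : ℝ) ^ a ≤ (N : ℝ) ^ (1 : ℝ) := Real.rpow_le_rpow_of_exponent_le hN' ha1
      _ = N := Real.rpow_one _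
  exact ⟨h3, h4, Real.log_nonneg h6, Real.log_le_log (by linarith) (h4.trans h7)⟩

theorem DSP_proof (hU : DNU_stmt) (hV : DNV_stmt) : DSP_stmt := by
  intro ε m κ p hε hε2 hm hκ hA
  obtain ⟨C1, hC1⟩ := hU ε hε
  obtain ⟨C2, hC2⟩ := hV ε hε
  filter_upwards [hA, DSP_log |C1| ε hε, DSP_log |C2| ε hε] with N h1 h2 h3
  obtain ⟨hN, h2⟩ := h2
  obtain ⟨-, h3⟩ := h3
  have hN' : (1 : ℝ) ≤ N := by exact_mod_cast hN
  have hN0 : (0 : ℝ) < N := by linarith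
  have hL : 0 ≤ Real.log N := Real.log_nonneg hN'
  rcases h1 with h1 | ⟨hk, h1⟩
  · obtain ⟨g1, g2, g3, g4⟩ := DSP_min (a := 1 / 2 - ε) (hm N) hN (by linarith) (by linarith)
    set m' := min (m N) ⌊(N : ℝ) ^ (1 / 2 - ε)⌋₊ with hm'
    obtain ⟨M, R, K, k1, k2, k3, k4⟩ := hC1 m' (κ N) (p N) g1 (hκ N) h1
    have e1 : ((N : ℝ) ^ (1 / 2 - ε)) ^ 2 = (N : ℝ) ^ (1 - 2 * ε) := by
      rw [← Real.rpow_natCast, ← Real.rpow_mul hN0.le]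
      congr 1
      push_cast
      ring
    have e2 : (m' : ℝ) ^ 2 ≤ (N : ℝ) ^ (1 - 2 * ε) := by
      rw [← e1]
      exact pow_le_pow_left₀ (Nat.cast_nonneg _) g2 2
    have e3 : 0 < (N : ℝ) ^ (1 - 2 * ε) := Real.rpow_pos_of_pos hN0 _
    have e4 : (N : ℝ) ^ (1 - 2 * ε) * (N : ℝ) ^ (ε / 2) ≤ (N : ℝ) ^ (1 - ε / 2) := by
      rw [← Real.rpow_add hN0]
      exact Real.rpow_le_rpow_of_exponent_le hN' (by linarith)
    have e5 : (N : ℝ) ^ (1 - ε / 2) ≤ N := by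
      calc (N : ℝ) ^ (1 - ε / 2) ≤ (N : ℝ) ^ (1 : ℝ) :=
            Real.rpow_le_rpow_of_exponent_le hN' (by linarith)
        _ = N := Real.rpow_one _
    have main : |C1| * (m' : ℝ) ^ 2 * (1 + Real.log m') ^ 2 ≤ (N : ℝ) ^ (1 - ε / 2) := by
      calc |C1| * (m' : ℝ) ^ 2 * (1 + Real.log m') ^ 2
          ≤ |C1| * (N : ℝ) ^ (1 - 2 * ε) * (1 + Real.log N) ^ 2 := by
            refine mul_le_mul (mul_le_mul_of_nonneg_left e2 (abs_nonneg _)) ?_ (sq_nonneg _)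
              (mul_nonneg (abs_nonneg _) e3.le)
            exact pow_le_pow_left₀ (by linarith) (by linarith) 2
        _ = (N : ℝ) ^ (1 - 2 * ε) * (|C1| * (1 + Real.log N) ^ 2) := by ring
        _ ≤ (N : ℝ) ^ (1 - 2 * ε) * (N : ℝ) ^ (ε / 2) := mul_le_mul_of_nonneg_left h2 e3.le
        _ ≤ _ := e4
    refine ⟨M, R, K, k1, ?_, ?_, DSP_mono (min_le_left _ _) k4⟩
    · refine k2.trans (le_trans ?_ main)
      rw [mul_assoc, mul_assoc]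
      exact mul_le_mul_of_nonneg_right (le_abs_self _) (mul_nonneg (sq_nonneg _) (sq_nonneg _))
    · have e6 : (R : ℝ) ≤ N := by
        refine k3.trans (le_trans ?_ (main.trans e5))
        have e7 : 1 + Real.log m' ≤ (1 + Real.log m') ^ 2 := by nlinarith
        calc C1 * (m' : ℝ) ^ 2 * (1 + Real.log m')
            ≤ |C1| * (m' : ℝ) ^ 2 * (1 + Real.log m') := by
              rw [mul_assoc, mul_assoc]
              exact mul_le_mul_of_nonneg_right (le_abs_self _)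
                (mul_nonneg (sq_nonneg _) (by linarith))
          _ ≤ |C1| * (m' : ℝ) ^ 2 * (1 + Real.log m') ^ 2 :=
              mul_le_mul_of_nonneg_left e7 (mul_nonneg (abs_nonneg _) (sq_nonneg _))
      exact_mod_cast e6
  · obtain ⟨g1, g2, g3, g4⟩ := DSP_min (a := 1 - ε) (hm N) hN (by linarith) (by linarith)
    set m' := min (m N) ⌊(N : ℝ) ^ (1 - ε)⌋₊ with hm'
    obtain ⟨M, R, K, k1, k2, k3, k4⟩ := hC2 m' (p N) g1 h1
    have e3 : 0 < (N : ℝ) ^ (1 - ε) := Real.rpow_pos_of_pos hN0 _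
    have e4 : (N : ℝ) ^ (1 - ε) * (N : ℝ) ^ (ε / 2) ≤ (N : ℝ) ^ (1 - ε / 2) := by
      rw [← Real.rpow_add hN0]
      exact Real.rpow_le_rpow_of_exponent_le hN' (by linarith)
    have e5 : (N : ℝ) ^ (1 - ε / 2) ≤ N := by
      calc (N : ℝ) ^ (1 - ε / 2) ≤ (N : ℝ) ^ (1 : ℝ) :=
            Real.rpow_le_rpow_of_exponent_le hN' (by linarith)
        _ = N := Real.rpow_one _
    have main : |C2| * (m' : ℝ) * (1 + Real.log m') ^ 2 ≤ (N : ℝ) ^ (1 - ε / 2) := by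
      calc |C2| * (m' : ℝ) * (1 + Real.log m') ^ 2
          ≤ |C2| * (N : ℝ) ^ (1 - ε) * (1 + Real.log N) ^ 2 := by
            refine mul_le_mul (mul_le_mul_of_nonneg_left g2 (abs_nonneg _)) ?_ (sq_nonneg _)
              (mul_nonneg (abs_nonneg _) e3.le)
            exact pow_le_pow_left₀ (by linarith) (by linarith) 2
        _ = (N : ℝ) ^ (1 - ε) * (|C2| * (1 + Real.log N) ^ 2) := by ring
        _ ≤ (N : ℝ) ^ (1 - ε) * (N : ℝ) ^ (ε / 2) := mul_le_mul_of_nonneg_left h3 e3.le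
        _ ≤ _ := e4
    refine ⟨M, R, K, k1, ?_, ?_, ?_⟩
    · refine k2.trans (le_trans ?_ main)
      rw [mul_assoc, mul_assoc]
      exact mul_le_mul_of_nonneg_right (le_abs_self _)
        (mul_nonneg (Nat.cast_nonneg _) (sq_nonneg _))
    · have e6 : (R : ℝ) ≤ N := by
        refine k3.trans (le_trans ?_ (main.trans e5))
        have e7 : (1 : ℝ) ≤ (1 + Real.log m') ^ 2 := by nlinarith
        calc C2 * (m' : ℝ) ≤ |C2| * (m' : ℝ) :=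
              mul_le_mul_of_nonneg_right (le_abs_self _) (Nat.cast_nonneg _)
          _ = |C2| * (m' : ℝ) * 1 := by ring
          _ ≤ |C2| * (m' : ℝ) * (1 + Real.log m') ^ 2 :=
              mul_le_mul_of_nonneg_left e7 (mul_nonneg (abs_nonneg _) (Nat.cast_nonneg _))
      exact_mod_cast e6
    · rw [hk]
      exact DSP_mono (min_le_left _ _) k4

end Pool.Agent.ISO
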